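import Pool.Agent.H53.UK.Targets

/-!
# MP_c62aed_lc, row REU of uk_modules: few choices are irregular
-/

set_option autoImplicit false

namespace Pool.Agent.H91.UK

open Finset Pool.Agent.H53.UK
open Pool.Agent.H53.MW (th0)
open Pool.Agent.H97.SHL (DT bl)

/-- the union bound -/
private theorem ub {Ω ι : Type} [Fintype Ω] (s : Finset ι) (P : ι → Ω → Prop) (N C : ℕ)
    (h : ∀ i ∈ s, Nat.card {σ : Ω // P i σ} * N ≤ C) :
    Nat.card {σ : Ω // ∃ i ∈ s, P i σ} * N ≤ s.card * C := by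
  classical
  have h1 : Nat.card {σ : Ω // ∃ i ∈ s, P i σ} ≤ ∑ i ∈ s, Nat.card {σ : Ω // P i σ} := by
    rw [Nat.card_eq_fintype_card, Fintype.card_subtype]
    have h2 : (univ.filter fun σ : Ω => ∃ i ∈ s, P i σ) ⊆
        s.biUnion fun i => univ.filter fun σ : Ω => P i σ := by
      intro σ hσ
      obtain ⟨i, hi, hp⟩ := (mem_filter.mp hσ).2
      exact mem_biUnion.mpr ⟨i, hi, mem_filter.mpr ⟨mem_univ _, hp⟩⟩
    refine (card_le_card h2).trans (card_biUnion_le.trans (le_of_eq ?_))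
    refine sum_congr rfl fun i _ => ?_
    rw [Nat.card_eq_fintype_card, Fintype.card_subtype]
  calc Nat.card {σ : Ω // ∃ i ∈ s, P i σ} * N
      ≤ (∑ i ∈ s, Nat.card {σ : Ω // P i σ}) * N := Nat.mul_le_mul_right _ h1
    _ = ∑ i ∈ s, Nat.card {σ : Ω // P i σ} * N := by rw [sum_mul]
    _ ≤ ∑ _i ∈ s, C := sum_le_sum h
    _ = s.card * C := by rw [sum_const, smul_eq_mul]

/-- the union bound for two events -/
private theorem ub2 {Ω : Type} [Fintype Ω] (P Q : Ω → Prop) (N C C' : ℕ)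
    (h : Nat.card {σ : Ω // P σ} * N ≤ C) (h' : Nat.card {σ : Ω // Q σ} * N ≤ C') :
    Nat.card {σ : Ω // P σ ∨ Q σ} * N ≤ C + C' := by
  classical
  have h1 : Nat.card {σ : Ω // P σ ∨ Q σ} ≤ Nat.card {σ : Ω // P σ} +
      Nat.card {σ : Ω // Q σ} := by
    simp only [Nat.card_eq_fintype_card, Fintype.card_subtype]
    rw [filter_or]
    exact card_union_le _ _
  calc Nat.card {σ : Ω // P σ ∨ Q σ} * N
      ≤ (Nat.card {σ : Ω // P σ} + Nat.card {σ : Ω // Q σ}) * N := Nat.mul_le_mul_right _ h1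
    _ = Nat.card {σ : Ω // P σ} * N + Nat.card {σ : Ω // Q σ} * N := by rw [add_mul]
    _ ≤ C + C' := add_le_add h h'

/-- monotonicity -/
private theorem um {Ω : Type} [Fintype Ω] (P Q : Ω → Prop) (h : ∀ σ, P σ → Q σ) :
    Nat.card {σ : Ω // P σ} ≤ Nat.card {σ : Ω // Q σ} := by
  classical
  simp only [Nat.card_eq_fintype_card, Fintype.card_subtype]
  exact card_le_card fun σ hσ => mem_filter.mpr ⟨mem_univ _, h σ (mem_filter.mp hσ).2⟩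

/-- the exponents -/
private theorem ar1 (n t : ℕ) (hn : n ≤ t) (ht : 2 ≤ t) :
    (2 * n + 2) + (2 * n + ((1 + n + 2 * (((t + 1) * t + 2) * n)) + (t + 3))) ≤ 16 * t ^ 3 := by
  have h1 : (t + 1) * t * n ≤ (t + 1) * t * t := Nat.mul_le_mul_left _ hn
  have h2 : 2 * t ≤ t * t := Nat.mul_le_mul_right _ ht
  have h3 : 2 * (t * t) ≤ t * (t * t) := Nat.mul_le_mul_right _ ht
  have h4 : t ^ 3 = t * (t * t) := by ring
  have h5 : ((t + 1) * t + 2) * n = (t + 1) * t * n + 2 * n := by ring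
  have h6 : (t + 1) * t * t = t * (t * t) + t * t := by ring
  rw [h4, h5]
  rw [h6] at h1
  omega

private theorem ar2 (n t : ℕ) (hn : n ≤ t) (ht : 2 ≤ t) :
    2 * (4 * (n + 1)) * (16 * t ^ 3) ≤ 2 ^ 8 * t ^ 4 := by
  have h1 : n + 1 ≤ 2 * t := by omega
  calc 2 * (4 * (n + 1)) * (16 * t ^ 3) = 128 * t ^ 3 * (n + 1) := by ring
    _ ≤ 128 * t ^ 3 * (2 * t) := Nat.mul_le_mul_left _ h1
    _ = 2 ^ 8 * t ^ 4 := by ring

theorem pf_REU (hBLM : Pool.Agent.H97.SHL.T_BLM) (hINU : T_INU) (hSZU : T_SZU) (hDEU : T_DEU)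
    (hLOU : T_LOU) : T_REU := by
  intro n k m μ H γ t w d s₀ q θ hH P hθ 𝒬 𝓕 hQc hFc
  set θ₀ : ℕ := th0 n w with hθ₀
  have hθ₁ : 1 ≤ θ₀ := Nat.le_add_left 1 (2 ^ (n - w))
  have hθ₂ : 2 ^ (n - w) < θ₀ := Nat.lt_succ_self (2 ^ (n - w))
  set Ω : Type := (Fin m → Fin μ) with hΩ
  set E : ℕ := 16 * t ^ 3 with hE
  set C : ℕ := Nat.card Ω with hC
  set b : ℕ := 2 ^ (((t + 1) * t + 2) * n) with hb
  have ha1 : 1 ≤ 4 * (n + 1) := by omega
  have haE : 2 * (4 * (n + 1)) * E ≤ 2 ^ d := (ar2 n t P.nt P.t2).trans P.dd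
  have hak : 4 * (4 * (n + 1)) * s₀ ≤ μ := by
    have := P.los
    calc 4 * (4 * (n + 1)) * s₀ = 16 * (n + 1) * s₀ := by ring
      _ ≤ μ := this
  -- the parts of a decomposition
  have hdec := fun R => hDEU H d s₀ θ₀ hθ₁ R
  have hne : ∀ R, ∀ p' ∈ dcU H d s₀ θ₀ R, p'.1.Nonempty := fun R p' hp' =>
    card_pos.mp (lt_of_lt_of_le (by omega : 0 < θ₀) ((hdec R).big p' hp'))
  have hsm : ∀ R, ∀ p' ∈ dcU H d s₀ θ₀ R, p'.2.card < w := fun R p' hp' => by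
    obtain ⟨x, hx⟩ := hne R p' hp'
    exact hSZU H d s₀ w (p'.2, x) p'.1 P.wn ((hdec R).spr p' hp' x hx)
      (lt_of_lt_of_le hθ₂ ((hdec R).big p' hp'))
  have hag : ∀ R, ∀ p' ∈ dcU H d s₀ θ₀ R, ∀ x ∈ p'.1, ∀ y ∈ p'.1, ∀ i ∈ p'.2, x i = y i :=
    fun R p' hp' x hx y hy i hi => ((hdec R).spr p' hp' y hy).inc x hx i hi
  have hdcc : ∀ R, (dcU H d s₀ θ₀ R).card ≤ 2 ^ n := fun R => by
    have h1 : ((dcU H d s₀ θ₀ R).biUnion Prod.fst).card = ∑ p' ∈ dcU H d s₀ θ₀ R, p'.1.card :=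
      card_biUnion fun p' hp' p'' hp'' hne' => (hdec R).dis p' hp' p'' hp'' hne'
    have h2 : (dcU H d s₀ θ₀ R).card ≤ ∑ p' ∈ dcU H d s₀ θ₀ R, p'.1.card := by
      rw [card_eq_sum_ones]
      exact sum_le_sum fun p' hp' => card_pos.mpr (hne R p' hp')
    have h3 : ((dcU H d s₀ θ₀ R).biUnion Prod.fst).card ≤ 2 ^ n := by
      refine (card_le_univ _).trans (le_of_eq ?_)
      rw [Fintype.card_fun, Fintype.card_bool, Fintype.card_fin]
    omega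
  -- one event
  have hev : ∀ p : Finset (Fin n → Bool) × Finset (Fin n), p.1.Nonempty →
      (∀ x ∈ p.1, SpU H d s₀ (p.2, x) p.1) → p.2.card < w → ∀ R',
      Nat.card {σ : Ω // ¬ RgU H (AL σ) (4 * (n + 1)) p (dcU H d s₀ θ₀ R')} * 2 ^ E ≤ C :=
    fun p h1 h2 h3 R' => hLOU H w s₀ d (4 * (n + 1)) E hH ha1 P.μ1 haE hak p h1 h2 h3
      (dcU H d s₀ θ₀ R') (hdec R').dis (hsm R') (hag R')
  -- the families of regions
  have hbl : ∀ Q : Finset (Fin n → Bool), (bl 𝒬 n {Q}).card ≤ b := fun Q => by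
    have h1 := (hBLM (Fin n → Bool) 𝒬 {Q} {Q} n n subset_rfl le_rfl).2.2.2
    rw [card_singleton, one_mul] at h1
    refine h1.trans ?_
    rw [hb, pow_mul]
    refine Nat.pow_le_pow_left ?_ n
    have h2 : 2 ^ ((t + 1) * t + 2) = 4 * 2 ^ ((t + 1) * t) := by rw [pow_add]; ring
    have h3 : 1 ≤ 2 ^ ((t + 1) * t) := Nat.one_le_two_pow
    omega
  -- one witness
  have hwit : ∀ (A : Finset (Fin n)) (x₀ : Fin n → Bool) (Q : Finset (Fin n → Bool)),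
      SpU H d s₀ (A, x₀) Q → θ ≤ Q.card →
      Nat.card {σ : Ω // ¬ RglU H d s₀ θ₀ 𝒬 (AL σ) A Q} * 2 ^ E ≤
        C + b * (b * (2 ^ n * C)) := by
    intro A x₀ Q hSp hQ
    have hSp' : ∀ x ∈ Q, SpU H d s₀ (A, x) Q := fun x hx =>
      (hINU H d s₀ A x₀ x (fun i hi => (hSp.inc x hx i hi).symm)).2.2 Q hSp
    have hA : A.card < w := hSZU H d s₀ w (A, x₀) Q P.wn hSp
      (lt_of_lt_of_le hθ₂ (hθ.trans hQ))
    have hroot := hev (Q, A) hSp.ne hSp' hA Q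
    have hnode : Nat.card {σ : Ω // ∃ R ∈ bl 𝒬 n {Q}, ∃ R' ∈ bl 𝒬 n {Q},
        ∃ p ∈ dcU H d s₀ θ₀ R, ¬ RgU H (AL σ) (4 * (n + 1)) p (dcU H d s₀ θ₀ R')} * 2 ^ E ≤
        b * (b * (2 ^ n * C)) := by
      refine (ub (bl 𝒬 n {Q}) (fun R (σ : Ω) => ∃ R' ∈ bl 𝒬 n {Q}, ∃ p ∈ dcU H d s₀ θ₀ R,
        ¬ RgU H (AL σ) (4 * (n + 1)) p (dcU H d s₀ θ₀ R')) (2 ^ E) (b * (2 ^ n * C))
        fun R hR => ?_).trans (Nat.mul_le_mul_right _ (hbl Q))
      refine (ub (bl 𝒬 n {Q}) (fun R' (σ : Ω) => ∃ p ∈ dcU H d s₀ θ₀ R,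
        ¬ RgU H (AL σ) (4 * (n + 1)) p (dcU H d s₀ θ₀ R')) (2 ^ E) (2 ^ n * C)
        fun R' hR' => ?_).trans (Nat.mul_le_mul_right _ (hbl Q))
      refine (ub (dcU H d s₀ θ₀ R) (fun p (σ : Ω) =>
        ¬ RgU H (AL σ) (4 * (n + 1)) p (dcU H d s₀ θ₀ R')) (2 ^ E) C
        fun p hp => ?_).trans (Nat.mul_le_mul_right _ (hdcc R))
      exact hev p (hne R p hp) ((hdec R).spr p hp) (hsm R p hp) R'
    refine le_trans (Nat.mul_le_mul_right _ (um _ _ fun σ hσ => ?_))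
      (ub2 _ _ (2 ^ E) _ _ hroot hnode)
    by_contra hcon
    rw [not_or] at hcon
    obtain ⟨h1, h2⟩ := hcon
    push Not at h1 h2
    exact hσ ⟨h1, fun R hR R' hR' p hp => h2 R hR R' hR' p hp⟩
  -- all witnesses
  classical
  let W : Finset (Fin n → Bool) → Finset (Fin n) × (Fin n → Bool) → Finset (Fin n → Bool) :=
    fun B p => if h : ∃ Q : Finset (Fin n → Bool), Q ⊆ B ∧ SpU H d s₀ p Q ∧ θ ≤ Q.card then
      h.choose else ∅
  have hW : ∀ B p, p ∈ KerU H d s₀ θ B → W B p ⊆ B ∧ SpU H d s₀ p (W B p) ∧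
      θ ≤ (W B p).card := by
    intro B p hp
    have h : ∃ Q : Finset (Fin n → Bool), Q ⊆ B ∧ SpU H d s₀ p Q ∧ θ ≤ Q.card := hp
    have h2 : W B p = h.choose := dif_pos h
    rw [h2]
    exact h.choose_spec
  have hall : Nat.card {σ : Ω // ¬ RegU H d s₀ θ₀ θ 𝒬 𝓕 (AL σ)} * 2 ^ E ≤
      2 ^ (2 * n + 2) * (2 ^ (2 * n) * (C + b * (b * (2 ^ n * C)))) := by
    refine le_trans (Nat.mul_le_mul_right _ (um _ (fun σ : Ω => ∃ B ∈ 𝓕,
      ∃ p ∈ (univ : Finset (Finset (Fin n) × (Fin n → Bool))), p ∈ KerU H d s₀ θ B ∧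
        ¬ RglU H d s₀ θ₀ 𝒬 (AL σ) p.1 (W B p)) fun σ hσ => ?_)) ?_
    · by_contra hcon
      push Not at hcon
      refine hσ fun B hB p hp => ?_
      obtain ⟨h1, h2, h3⟩ := hW B p hp
      exact ⟨W B p, h1, h2, h3, hcon B hB p (mem_univ _) hp⟩
    · refine (ub 𝓕 (fun B (σ : Ω) =>
        ∃ p ∈ (univ : Finset (Finset (Fin n) × (Fin n → Bool))), p ∈ KerU H d s₀ θ B ∧
          ¬ RglU H d s₀ θ₀ 𝒬 (AL σ) p.1 (W B p)) (2 ^ E)
        (2 ^ (2 * n) * (C + b * (b * (2 ^ n * C)))) fun B hB => ?_).trans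
        (Nat.mul_le_mul_right _ hFc)
      have hcu : (univ : Finset (Finset (Fin n) × (Fin n → Bool))).card = 2 ^ (2 * n) := by
        rw [card_univ, Fintype.card_prod, Fintype.card_finset, Fintype.card_fun,
          Fintype.card_bool, Fintype.card_fin, two_mul, pow_add]
      rw [← hcu]
      refine ub univ (fun p (σ : Ω) => p ∈ KerU H d s₀ θ B ∧
          ¬ RglU H d s₀ θ₀ 𝒬 (AL σ) p.1 (W B p)) (2 ^ E)
        (C + b * (b * (2 ^ n * C))) fun p _ => ?_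
      by_cases hp : p ∈ KerU H d s₀ θ B
      · obtain ⟨h1, h2, h3⟩ := hW B p hp
        exact le_trans (Nat.mul_le_mul_right _ (um _ _ fun σ hσ => hσ.2))
          (hwit p.1 p.2 (W B p) h2 h3)
      · have h0 : Nat.card {σ : Ω // p ∈ KerU H d s₀ θ B ∧
            ¬ RglU H d s₀ θ₀ 𝒬 (AL σ) p.1 (W B p)} = 0 := by
          rw [Nat.card_eq_zero]
          exact Or.inl ⟨fun σ => hp σ.2.1⟩
        rw [h0, zero_mul]
        exact Nat.zero_le _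
  -- the numbers
  have hb1 : 1 ≤ b := Nat.one_le_two_pow
  have hK : C + b * (b * (2 ^ n * C)) ≤ 2 ^ (1 + n + 2 * (((t + 1) * t + 2) * n)) * C := by
    have h1 : 2 ^ (1 + n + 2 * (((t + 1) * t + 2) * n)) = 2 * (b * (b * 2 ^ n)) := by
      rw [pow_add, pow_add, two_mul (((t + 1) * t + 2) * n), pow_add, ← hb]
      ring
    have h2 : 1 ≤ b * (b * 2 ^ n) :=
      Nat.one_le_iff_ne_zero.mpr (by positivity)
    calc C + b * (b * (2 ^ n * C)) = (1 + b * (b * 2 ^ n)) * C := by ring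
      _ ≤ (2 * (b * (b * 2 ^ n))) * C := Nat.mul_le_mul_right _ (by omega)
      _ = _ := by rw [h1]
  have hfin : Nat.card {σ : Ω // ¬ RegU H d s₀ θ₀ θ 𝒬 𝓕 (AL σ)} * 2 ^ (t + 3) * 2 ^ E ≤
      C * 2 ^ E := by
    calc Nat.card {σ : Ω // ¬ RegU H d s₀ θ₀ θ 𝒬 𝓕 (AL σ)} * 2 ^ (t + 3) * 2 ^ E
        = Nat.card {σ : Ω // ¬ RegU H d s₀ θ₀ θ 𝒬 𝓕 (AL σ)} * 2 ^ E * 2 ^ (t + 3) := by ring
      _ ≤ 2 ^ (2 * n + 2) * (2 ^ (2 * n) * (2 ^ (1 + n + 2 * (((t + 1) * t + 2) * n)) * C)) *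
          2 ^ (t + 3) := by
          refine Nat.mul_le_mul_right _ (hall.trans ?_)
          exact Nat.mul_le_mul_left _ (Nat.mul_le_mul_left _ hK)
      _ = C * 2 ^ ((2 * n + 2) + (2 * n + ((1 + n + 2 * (((t + 1) * t + 2) * n)) +
          (t + 3)))) := by
          generalize 1 + n + 2 * (((t + 1) * t + 2) * n) = y
          ring
      _ ≤ C * 2 ^ E := Nat.mul_le_mul_left _
          (Nat.pow_le_pow_right (by norm_num) (ar1 n t P.nt P.t2))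
  exact Nat.le_of_mul_le_mul_right hfin (by positivity)

end Pool.Agent.H91.UK
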